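import Mathlib

/-!
Effective motives: localizing subcategories, `n`-motives, the contraction by the Tate twist.
-/

set_option autoImplicit false

open CategoryTheory Limits Pretriangulated

namespace Pool.NMot

universe v u

section
variable {C : Type u} [Category.{v} C] [Preadditive C] [HasZeroObject C] [HasShift C ℤ]
  [∀ n : ℤ, (shiftFunctor C n).Additive] [Pretriangulated C] [HasCoproducts.{0} C]

/-- `P` is a localizing subcategory: closed under shifts, cones, direct sums, and (hence) under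
direct summands and isomorphisms. -/
structure Localizing (P : C → Prop) : Prop where
  shift : ∀ (X : C) (n : ℤ), P X → P (X⟦n⟧)
  cone : ∀ T ∈ distTriang C, P T.obj₁ → P T.obj₂ → P T.obj₃
  sum : ∀ (J : Type) (X : J → C), (∀ j, P (X j)) → P (∐ X)
  retract : ∀ (X Y : C) (i : X ⟶ Y) (r : Y ⟶ X), i ≫ r = 𝟙 X → P Y → P X

/-- The smallest localizing subcategory which contains `S`. -/
def Loc (S : C → Prop) (X : C) : Prop := ∀ P : C → Prop, Localizing P → (∀ Y, S Y → P Y) → P X

end

/-- `C = DM^eff_et(k, R)`, with the facts which are used. -/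
structure Theory (C : Type u) [Category.{v} C] [Preadditive C] [HasZeroObject C] [HasShift C ℤ]
    [∀ n : ℤ, (shiftFunctor C n).Additive] [Pretriangulated C] [HasCoproducts.{0} C] where
  /-- the smooth `k`-schemes of finite type -/
  Sm : Type
  /-- the dimension -/
  dim : Sm → ℕ
  /-- `X` is connected, and projective over `k`. -/
  Proj : Sm → Prop
  /-- `M X i = R_tr(X)(i)` -/
  M : Sm → ℕ → C
  /-- `Co X i = Hom^eff(R_tr(X), R(i))` -/
  Co : Sm → ℕ → C
  /-- `F = Hom^eff(R(1), -)` -/
  F : C ⥤ C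
  [comm : F.CommShift ℤ]
  /-- `F` is triangulated. -/
  [tri : F.IsTriangulated]
  /-- `F` commutes with direct sums (`R(1)` is compact). -/
  pres : ∀ J : Type, PreservesColimitsOfShape (Discrete J) F
  /-- The motive of a smooth scheme is generated by the motives of smooth projective varieties of
  at most the same dimension (resolution of singularities or alterations; `R` is a `ℚ`-algebra). -/
  gen : ∀ X, Loc (fun Y => ∃ Z, Proj Z ∧ dim Z ≤ dim X ∧ Y = M Z 0) (M X 0)
  /-- `R_tr(X)(i)[2 i]` is a direct summand of `R_tr(X × ℙ^i)`. -/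
  bundle : ∀ X i, Loc (fun Y => ∃ Z, dim Z ≤ dim X + i ∧ Y = M Z 0) (M X i)
  /-- cancellation: `Hom^eff(R(1), R_tr(X)(i + 1)) = R_tr(X)(i)` -/
  canc : ∀ X i, Nonempty (F.obj (M X (i + 1)) ≅ M X i)
  /-- cancellation: `Hom^eff(R(1), Hom^eff(R_tr(X), R(i + 1))) = Hom^eff(R_tr(X), R(i))` -/
  coh : ∀ X i, Nonempty (F.obj (Co X (i + 1)) ≅ Co X i)
  /-- `Hom^eff(R(1), Hom^eff(R_tr(X), R)) = Hom^eff(R_tr(X)(1), R) = 0` -/
  coh0 : ∀ X, IsZero (F.obj (Co X 0))
  /-- duality: `R_tr(X) = Hom^eff(R_tr(X), R(d)[2 d])`, `d = dim X` -/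
  dual : ∀ X, Proj X → Nonempty (M X 0 ≅ (Co X (dim X))⟦(2 * dim X : ℤ)⟧)
  /-- Cohomology of weight `0` is given by locally constant functions, a `0`-motive. -/
  wt0 : ∀ X, Proj X → Loc (fun Y => ∃ Z, dim Z ≤ 0 ∧ Y = M Z 0) (Co X 0)
  /-- Cohomology of weight `1` is given by units and the Picard scheme, a `1`-motive. -/
  wt1 : ∀ X, Proj X → Loc (fun Y => ∃ Z, dim Z ≤ 1 ∧ Y = M Z 0) (Co X 1)

attribute [instance] Theory.comm Theory.tri

variable {C : Type u} [Category.{v} C] [Preadditive C] [HasZeroObject C] [HasShift C ℤ]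
  [∀ n : ℤ, (shiftFunctor C n).Additive] [Pretriangulated C] [HasCoproducts.{0} C]

/-- `N` is an `(n - 1)`-motive: `N` lies in the smallest localizing subcategory which contains the
`R_tr(X)` with `dim X < n` (zero objects for `n = 0`). -/
def Theory.Mot (T : Theory C) (n : ℕ) (N : C) : Prop :=
  Loc (fun Y => ∃ X, T.dim X < n ∧ Y = T.M X 0) N

/-- `F^j` maps the `n`-motives to `(n - j)`-motives (to zero objects, if `j > n`).  For `j = 1` this
is the assertion of Q1 for `n`. -/
def Theory.Q (T : Theory C) (j n : ℕ) : Prop :=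
  ∀ N, T.Mot (n + 1) N → T.Mot (n + 1 - j) (T.F.obj^[j] N)

end Pool.NMot
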