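import Pool.Agent.H16.NMot.Defs

/-!
Q1 for `n ≤ 2`, for twists, and the reduction to cohomology of smooth projective varieties.
-/

set_option autoImplicit false

open CategoryTheory Limits Pretriangulated

namespace Pool.NMot

universe v u

variable {C : Type u} [Category.{v} C] [Preadditive C] [HasZeroObject C] [HasShift C ℤ]
  [∀ n : ℤ, (shiftFunctor C n).Additive] [Pretriangulated C] [HasCoproducts.{0} C]

theorem loc_mem {S : C → Prop} {Y : C} (h : S Y) : Loc S Y := fun _ _ hS => hS Y h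

theorem loc_localizing (S : C → Prop) : Localizing (Loc S) where
  shift X n h P hP hS := hP.shift X n (h P hP hS)
  cone T hT h1 h2 P hP hS := hP.cone T hT (h1 P hP hS) (h2 P hP hS)
  sum J X h P hP hS := hP.sum J X fun j => h j P hP hS
  retract X Y i r e h P hP hS := hP.retract X Y i r e (h P hP hS)

theorem Localizing.iso {P : C → Prop} (h : Localizing P) {X Y : C} (e : X ≅ Y) (hY : P Y) : P X :=
  h.retract X Y e.hom e.inv e.hom_inv_id hY

theorem loc_le {S S' : C → Prop} (h : ∀ Y, S Y → Loc S' Y) {N : C} (hN : Loc S N) : Loc S' N :=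
  hN _ (loc_localizing S') h

theorem zero_mem {P : C → Prop} (h : Localizing P) {X : C} (hX : IsZero X) : P X := by
  have h0 : P (∐ (fun j : PEmpty => (j.elim : C))) := h.sum PEmpty _ fun j => j.elim
  exact h.retract X _ 0 0 (hX.eq_of_src _ _) h0

theorem Localizing.iso_iff {P : C → Prop} (h : Localizing P) {X Y : C} (e : X ≅ Y) : P X ↔ P Y :=
  ⟨h.iso e.symm, h.iso e⟩

theorem Localizing.shift_iff {P : C → Prop} (h : Localizing P) (X : C) (n : ℤ) :
    P (X⟦n⟧) ↔ P X :=
  ⟨fun hX => h.iso (shiftShiftNeg X n).symm (h.shift _ (-n) hX), h.shift X n⟩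

/-- inverse image of a localizing subcategory -/
theorem localizing_pull (F : C ⥤ C) [F.CommShift ℤ] [F.IsTriangulated]
    (hF : ∀ J : Type, PreservesColimitsOfShape (Discrete J) F) {P : C → Prop} (hL : Localizing P) :
    Localizing (fun X => P (F.obj X)) := by
  refine ⟨fun X n hX => ?_, fun T hT h1 h2 => ?_, fun J X hX => ?_, fun X Y i r e hY => ?_⟩
  · exact hL.iso ((F.commShiftIso n).app X) (hL.shift _ n hX)
  · exact hL.cone _ (F.map_distinguished T hT) h1 h2
  · have := hF J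
    exact hL.iso (PreservesCoproduct.iso F X) (hL.sum J _ hX)
  · refine hL.retract _ _ (F.map i) (F.map r) ?_ hY
    rw [← F.map_comp, e, F.map_id]

variable (T : Theory C)

theorem localizing_iter {P : C → Prop} (hL : Localizing P) (j : ℕ) :
    Localizing (fun X => P (T.F.obj^[j] X)) := by
  induction j with
  | zero => exact hL
  | succ j ih => exact localizing_pull T.F T.pres ih

theorem mot_localizing (n : ℕ) : Localizing (T.Mot n) := loc_localizing _

theorem mot_mono {m n : ℕ} (h : m ≤ n) {N : C} (hN : T.Mot m N) : T.Mot n N :=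
  loc_le (fun _ hY => loc_mem (by obtain ⟨X, hX, rfl⟩ := hY; exact ⟨X, by omega, rfl⟩)) hN

theorem co_iter {P : C → Prop} (hL : Localizing P) (X : T.Sm) (j i : ℕ) :
    P (T.F.obj^[j] (T.Co X (i + j))) ↔ P (T.Co X i) := by
  induction j with
  | zero => exact Iff.rfl
  | succ j ih =>
      obtain ⟨e⟩ := T.coh X (i + j)
      rw [← ih]
      exact (localizing_iter T hL j).iso_iff e

theorem co_zero {P : C → Prop} (hL : Localizing P) (X : T.Sm) (i j : ℕ) (h : i < j) :
    P (T.F.obj^[j] (T.Co X i)) := by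
  induction i generalizing j with
  | zero =>
      obtain ⟨j, rfl⟩ : ∃ j', j = j' + 1 := ⟨j - 1, by omega⟩
      exact zero_mem (localizing_iter T hL j) (T.coh0 X)
  | succ i ih =>
      obtain ⟨j, rfl⟩ : ∃ j', j = j' + 1 := ⟨j - 1, by omega⟩
      obtain ⟨e⟩ := T.coh X i
      exact ((localizing_iter T hL j).iso_iff e).2 (ih j (by omega))

theorem proj_iff {P : C → Prop} (hL : Localizing P) {X : T.Sm} (hX : T.Proj X) (j : ℕ) :
    P (T.F.obj^[j] (T.M X 0)) ↔ P (T.F.obj^[j] (T.Co X (T.dim X))) := by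
  obtain ⟨e⟩ := T.dual X hX
  have hj := localizing_iter T hL j
  exact (hj.iso_iff e).trans (hj.shift_iff _ _)

/-- only smooth projective varieties matter -/
theorem q_of_proj {j n : ℕ}
    (h : ∀ X, T.Proj X → T.dim X ≤ n → T.Mot (T.dim X + 1 - j) (T.F.obj^[j] (T.M X 0))) :
    T.Q j n := by
  intro N hN
  refine hN (fun N => T.Mot (n + 1 - j) (T.F.obj^[j] N)) (localizing_iter T (mot_localizing T _) j) ?_
  rintro _ ⟨X, hX, rfl⟩
  refine T.gen X (fun N => T.Mot (n + 1 - j) (T.F.obj^[j] N))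
    (localizing_iter T (mot_localizing T _) j) ?_
  rintro _ ⟨Z, hZ, hd, rfl⟩
  exact mot_mono T (by omega) (h Z hZ (by omega))

/-- the case `dim X ≤ j + 1` -/
theorem proj_small {X : T.Sm} (hX : T.Proj X) {j : ℕ} (hd : T.dim X ≤ j + 1) :
    T.Mot (T.dim X + 1 - j) (T.F.obj^[j] (T.M X 0)) := by
  have hL := mot_localizing T (T.dim X + 1 - j)
  rw [proj_iff T hL hX]
  rcases Nat.lt_or_ge (T.dim X) j with h0 | h0
  · exact co_zero T hL X _ _ h0
  · obtain ⟨i, hi⟩ : ∃ i, T.dim X = i + j := ⟨T.dim X - j, by omega⟩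
    rw [hi, co_iter T (mot_localizing T _)]
    rcases Nat.eq_zero_or_pos i with h1 | h1
    · subst h1
      refine loc_le (fun Y hY => loc_mem ?_) (T.wt0 X hX)
      obtain ⟨Z, hZ, rfl⟩ := hY
      exact ⟨Z, by omega, rfl⟩
    · have h2 : i = 1 := by omega
      subst h2
      refine loc_le (fun Y hY => loc_mem ?_) (T.wt1 X hX)
      obtain ⟨Z, hZ, rfl⟩ := hY
      exact ⟨Z, by omega, rfl⟩

theorem q_small {n j : ℕ} (h : n ≤ j + 1) : T.Q j n :=
  q_of_proj T fun X hX hd => proj_small T hX (by omega)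

theorem q_iff (d j : ℕ) : (∀ n ≤ d, T.Q j n) ↔
    ∀ X, T.Proj X → j + 2 ≤ T.dim X → T.dim X ≤ d →
      T.Mot (T.dim X + 1 - j) (T.Co X (T.dim X - j)) := by
  have key : ∀ X, T.Proj X → j + 2 ≤ T.dim X →
      (T.Mot (T.dim X + 1 - j) (T.F.obj^[j] (T.M X 0)) ↔
        T.Mot (T.dim X + 1 - j) (T.Co X (T.dim X - j))) := by
    intro X hX hd
    have hL := mot_localizing T (T.dim X + 1 - j)
    rw [proj_iff T hL hX]
    have e : T.dim X = (T.dim X - j) + j := by omega
    have h1 := co_iter T hL X j (T.dim X - j)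
    rw [← e] at h1
    exact h1
  constructor
  · intro h X hX h3 hd
    rw [← key X hX h3]
    exact h (T.dim X) hd _ (loc_mem ⟨X, by omega, rfl⟩)
  · intro h n hn
    refine q_of_proj T fun X hX hd => ?_
    rcases Nat.lt_or_ge (T.dim X) (j + 2) with h3 | h3
    · exact proj_small T hX (by omega)
    · rw [key X hX h3]
      exact h X hX h3 (by omega)

/-- twists -/
theorem q_twist (d n : ℕ) (h : ∀ m ≤ d, T.Q 1 m) {N : C}
    (hN : Loc (fun Y => ∃ X i, T.dim X ≤ d ∧ T.dim X + i ≤ n ∧ Y = T.M X i) N) :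
    T.Mot n (T.F.obj N) := by
  refine hN (fun N => T.Mot n (T.F.obj N)) (localizing_pull T.F T.pres (mot_localizing T n)) ?_
  rintro _ ⟨X, i, hd, hi, rfl⟩
  rcases i with _ | i
  · exact mot_mono T (by omega) (h (T.dim X) hd _ (loc_mem ⟨X, by omega, rfl⟩))
  · obtain ⟨e⟩ := T.canc X i
    refine (mot_localizing T n).iso e ?_
    refine loc_le (fun Y hY => loc_mem ?_) (T.bundle X i)
    obtain ⟨Z, hZ, rfl⟩ := hY
    exact ⟨Z, by omega, rfl⟩

end Pool.NMot
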